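import Mathlib

set_option autoImplicit false

namespace Pool.Agent.SDisj

open Set Topology

def W {X : Type} (F : ℕ → Set (Set X)) (e : ℕ → Set X → ℕ → Set X) (n m k : ℕ) (c : Set X) : Set X :=
  ⋃₀ {b | b ∈ F n ∧ b ⊆ c ∧ e m b k = c}

theorem main :
    ∀ (X : Type) [TopologicalSpace X],
      (∃ B : Set (Set X), TopologicalSpace.IsTopologicalBasis B ∧
        ∃ F : ℕ → Set (Set X), B = ⋃ n, F n ∧ ∀ n, (F n).PairwiseDisjoint id) →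
      (∃ B : Set (Set X), TopologicalSpace.IsTopologicalBasis B ∧
        ∃ F : ℕ → Set (Set X), B = ⋃ n, F n ∧
          ∀ n, ∀ x : X, ∃ U ∈ 𝓝 x, {S ∈ F n | (S ∩ U).Nonempty}.Countable) →
      ∃ B : Set (Set X), TopologicalSpace.IsTopologicalBasis B ∧
        (∃ F : ℕ → Set (Set X), B = ⋃ n, F n ∧ ∀ n, (F n).PairwiseDisjoint id) ∧
        (∃ G : ℕ → Set (Set X), B = ⋃ n, G n ∧
          ∀ n, ∀ x : X, ∃ U ∈ 𝓝 x, {S ∈ G n | (S ∩ U).Nonempty}.Countable) := by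
  rintro X _ ⟨B, hB, F, rfl, hF⟩ ⟨B', hB', G, rfl, hG⟩
  have hcount : ∀ (m : ℕ) (b : Set X), b.Nonempty → {c | c ∈ G m ∧ b ⊆ c}.Countable := by
    rintro m b ⟨x, hx⟩
    obtain ⟨U, hU, hUc⟩ := hG m x
    refine hUc.mono ?_
    rintro c ⟨hc, hbc⟩
    exact ⟨hc, x, hbc hx, mem_of_mem_nhds hU⟩
  have hex : ∀ (m : ℕ) (b : Set X), ∃ e : ℕ → Set X, b.Nonempty → {c | c ∈ G m ∧ b ⊆ c} ⊆ range e := by
    intro m b
    by_cases hb : b.Nonempty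
    · obtain ⟨e, he⟩ := Set.countable_iff_exists_subset_range.1 (hcount m b hb)
      exact ⟨e, fun _ => he⟩
    · exact ⟨fun _ => ∅, fun h => absurd h hb⟩
  choose e he using hex
  have hWsub : ∀ n m k c, W F e n m k c ⊆ c := by
    rintro n m k c x ⟨b, ⟨_, hbc, _⟩, hx⟩
    exact hbc hx
  set H : ℕ → Set (Set X) := fun i =>
    (fun c => W F e (Nat.unpair i).1 (Nat.unpair (Nat.unpair i).2).1 (Nat.unpair (Nat.unpair i).2).2 c) ''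
      G (Nat.unpair (Nat.unpair i).2).1 with hH
  refine ⟨⋃ i, H i, ?_, ⟨H, rfl, ?_⟩, ⟨H, rfl, ?_⟩⟩
  · apply TopologicalSpace.isTopologicalBasis_of_isOpen_of_nhds
    · intro u hu
      obtain ⟨i, hi⟩ := mem_iUnion.1 hu
      obtain ⟨c, _, rfl⟩ := hi
      apply isOpen_sUnion
      rintro b ⟨hb, _, _⟩
      exact hB.isOpen (mem_iUnion.2 ⟨_, hb⟩)
    · intro x U hx hU
      obtain ⟨c, hc, hxc, hcU⟩ := hB'.exists_subset_of_mem_open hx hU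
      obtain ⟨m, hm⟩ := mem_iUnion.1 hc
      obtain ⟨b, hb, hxb, hbc⟩ := hB.exists_subset_of_mem_open hxc (hB'.isOpen hc)
      obtain ⟨n, hn⟩ := mem_iUnion.1 hb
      obtain ⟨k, hk⟩ := he m b ⟨x, hxb⟩ ⟨hm, hbc⟩
      refine ⟨W F e n m k c, mem_iUnion.2 ⟨Nat.pair n (Nat.pair m k), ?_⟩, ?_, (hWsub _ _ _ _).trans hcU⟩
      · rw [hH]
        simp only [Nat.unpair_pair]
        exact ⟨c, hm, rfl⟩
      · exact ⟨b, ⟨hn, hbc, hk⟩, hxb⟩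
  · intro i
    rintro _ ⟨c, hc, rfl⟩ _ ⟨c', hc', rfl⟩ hne
    rw [Function.onFun, id, id, Set.disjoint_left]
    rintro x ⟨b, ⟨hb, hbc, hbe⟩, hx⟩ ⟨b', ⟨hb', hbc', hbe'⟩, hx'⟩
    have hbb : b = b' := by
      by_contra hbb
      exact Set.disjoint_left.1 (hF _ hb hb' hbb) hx hx'
    subst hbb
    apply hne
    rw [← hbe, ← hbe']
  · intro i x
    obtain ⟨U, hU, hUc⟩ := hG (Nat.unpair (Nat.unpair i).2).1 x
    refine ⟨U, hU, ?_⟩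
    refine (hUc.image (fun c => W F e (Nat.unpair i).1 (Nat.unpair (Nat.unpair i).2).1 (Nat.unpair (Nat.unpair i).2).2 c)).mono ?_
    rintro _ ⟨⟨c, hc, rfl⟩, y, hy, hyU⟩
    exact ⟨c, ⟨hc, y, hWsub _ _ _ _ hy, hyU⟩, rfl⟩

end Pool.Agent.SDisj
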